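import Mathlib

set_option autoImplicit false

namespace Pool.Agent.Results.MP_7f507d_al.FiniteBasis

universe u

/-- Terms in the signature `(·, ¬, 1)` over the variables `x_0, x_1, …`. -/
inductive Term : Type
  | var (n : ℕ) : Term
  | one : Term
  | mul (s t : Term) : Term
  | neg (t : Term) : Term

/-- An algebra of type `(2, 1, 0)`. -/
structure Alg (M : Type u) where
  mul : M → M → M
  neg : M → M
  one : M

/-- The value of a term in an algebra under a valuation of the variables. -/
def Term.eval {M : Type u} (A : Alg M) (v : ℕ → M) : Term → M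
  | .var n => v n
  | .one => A.one
  | .mul s t => A.mul (s.eval A v) (t.eval A v)
  | .neg t => A.neg (t.eval A v)

/-- The algebra `A` satisfies the identity `s ≈ t`. -/
def Satisfies {M : Type u} (A : Alg M) (s t : Term) : Prop :=
  ∀ v : ℕ → M, s.eval A v = t.eval A v

/-- Substitution of terms for variables. -/
def Term.subst (σ : ℕ → Term) : Term → Term
  | .var n => σ n
  | .one => .one
  | .mul s t => .mul (s.subst σ) (t.subst σ)
  | .neg t => .neg (t.subst σ)

/-- Equational consequence (equational logic): the least relation containing the identities in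
`S` which is an equivalence, compatible with the operations and closed under substitution. -/
inductive Derives (S : List (Term × Term)) : Term → Term → Prop
  | ax (s t : Term) (h : (s, t) ∈ S) : Derives S s t
  | refl (s : Term) : Derives S s s
  | symm (s t : Term) (h : Derives S s t) : Derives S t s
  | trans (s t r : Term) (h₁ : Derives S s t) (h₂ : Derives S t r) : Derives S s r
  | mul (s s' t t' : Term) (h₁ : Derives S s s') (h₂ : Derives S t t') :
      Derives S (.mul s t) (.mul s' t')
  | neg (s t : Term) (h : Derives S s t) : Derives S (.neg s) (.neg t)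
  | subst (s t : Term) (σ : ℕ → Term) (h : Derives S s t) :
      Derives S (s.subst σ) (t.subst σ)

/-- The three elements `1`, `c`, `¬c`. -/
inductive C3 : Type
  | one : C3
  | c : C3
  | nc : C3

/-- The algebra `C₃ˢ`: `1` is the unit, `c · ¬c = ¬c`, and `¬` fixes `1` and swaps `c`, `¬c`. -/
def algC3 : Alg C3 where
  mul
    | .one, y => y
    | x, .one => x
    | .c, .c => .c
    | _, _ => .nc
  neg
    | .one => .one
    | .c => .nc
    | .nc => .c
  one := .one

/-- The join term `s + t = ¬(¬s · ¬t)`. -/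
def Term.add (s t : Term) : Term := .neg (.mul (.neg s) (.neg t))

/-- `⊥_s = s · ¬s`. -/
def Term.bot (s : Term) : Term := .mul s (.neg s)

/-- The variables used in the basis. -/
abbrev x : Term := .var 0
abbrev y : Term := .var 1
abbrev z : Term := .var 2

/-- `(x y) z ≈ x (y z)` -/
abbrev idAssoc : Term × Term := (.mul (.mul x y) z, .mul x (.mul y z))
/-- `x y ≈ y x` -/
abbrev idComm : Term × Term := (.mul x y, .mul y x)
/-- `x x ≈ x` -/
abbrev idIdem : Term × Term := (.mul x x, x)
/-- `x 1 ≈ x` -/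
abbrev idUnit : Term × Term := (.mul x .one, x)
/-- `¬¬x ≈ x` -/
abbrev idInv : Term × Term := (.neg (.neg x), x)
/-- `¬1 ≈ 1` -/
abbrev idNegOne : Term × Term := (.neg .one, .one)
/-- `x · ¬⊥_x ≈ x` -/
abbrev idTop : Term × Term := (.mul x (.neg x.bot), x)
/-- `⊥_x · ⊥_y ≈ ⊥_{x y}` -/
abbrev idBotMul : Term × Term := (.mul x.bot y.bot, (Term.mul x y).bot)
/-- `⊥_x + ⊥_y ≈ ⊥_x · ⊥_y` -/
abbrev idBotAdd : Term × Term := (.add x.bot y.bot, .mul x.bot y.bot)
/-- `x (y + z) ≈ (x y + x z) (y + z)` -/
abbrev idDist : Term × Term :=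
  (.mul x (.add y z), .mul (.add (.mul x y) (.mul x z)) (.add y z))

/-- The explicit basis of ten identities. -/
def basis : List (Term × Term) :=
  [idAssoc, idComm, idIdem, idUnit, idInv, idNegOne, idTop, idBotMul, idBotAdd, idDist]

/-- A model of the basis, as a commutative monoid. -/
class Model (M : Type u) extends CommMonoid M where
  ng : M → M
  idem : ∀ x : M, x * x = x
  ng_ng : ∀ x : M, ng (ng x) = x
  ng_one : ng (1 : M) = 1
  mul_top : ∀ x : M, x * ng (x * ng x) = x
  bot_bot : ∀ x y : M, (x * ng x) * (y * ng y) = (x * y) * ng (x * y)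
  bot_add : ∀ x y : M, ng (ng (x * ng x) * ng (y * ng y)) = (x * ng x) * (y * ng y)
  dist : ∀ x y z : M, x * ng (ng y * ng z) =
    ng (ng (x * y) * ng (x * z)) * ng (ng y * ng z)

namespace Model

variable {M : Type u} [Model M]

/-- join -/
def ad (x y : M) : M := ng (ng x * ng y)

/-- bottom of the fibre -/
def o (x : M) : M := x * ng x

lemma ad_comm (x y : M) : ad x y = ad y x := by rw [ad, ad, mul_comm]

lemma ng_ad (x y : M) : ng (ad x y) = ng x * ng y := by rw [ad, ng_ng]

lemma ng_mul (x y : M) : ng (x * y) = ad (ng x) (ng y) := by rw [ad, ng_ng, ng_ng]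

lemma ad_assoc (x y z : M) : ad (ad x y) z = ad x (ad y z) := by
  simp only [ad, ng_ng, mul_assoc]

lemma ad_self (x : M) : ad x x = x := by rw [ad, idem, ng_ng]

lemma ad_one (x : M) : ad x 1 = x := by rw [ad, ng_one, mul_one, ng_ng]

lemma one_ad (x : M) : ad 1 x = x := by rw [ad_comm, ad_one]

lemma o_ng (x : M) : o (ng x) = o x := by rw [o, o, ng_ng, mul_comm]

lemma o_mul (x y : M) : o (x * y) = o x * o y := (bot_bot x y).symm

lemma o_ad (x y : M) : o (ad x y) = o x * o y := by rw [ad, o_ng, o_mul, o_ng, o_ng]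

lemma o_o (x : M) : o (o x) = o x := by
  have : o (o x) = o (x * ng x) := rfl
  rw [this, o_mul, o_ng, idem]

lemma o_one : o (1 : M) = 1 := by rw [o, ng_one, mul_one]

lemma ad_o_o (x y : M) : ad (o x) (o y) = o x * o y := bot_add x y

lemma mul_ng_o (x : M) : x * ng (o x) = x := mul_top x

lemma ad_o (x : M) : ad x (o x) = x := by
  have h := mul_ng_o (ng x)
  rw [o_ng] at h
  rw [ad, h, ng_ng]

lemma dist' (x y z : M) : x * ad y z = ad (x * y) (x * z) * ad y z := dist x y z

lemma dual_dist (x y z : M) : ad x (y * z) = ad (ad x y * ad x z) (y * z) := by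
  have h := dist' (ng x) (ng y) (ng z)
  have h2 := congrArg ng h
  rw [ng_mul, ng_ng, ng_ad, ng_ng, ng_ng, ng_mul, ng_ad, ng_ad, ng_mul, ng_mul, ng_ng, ng_ng,
    ng_ng] at h2
  exact h2

lemma ad_ng_self (x : M) : ad x (ng x) = ng (o x) := by
  rw [ad, ng_ng, mul_comm]; rfl

/-- the fibre over `E` -/
@[ext] structure Fib (E : M) : Type u where
  val : M
  prop : o val = E

lemma fib_split {x y : M} (h : o x = o y) : x = ad (x * y) (x * ng y) := by
  have h1 := dist' x y (ng y)
  rw [ad_ng_self, ← h, mul_ng_o] at h1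
  have h2 : o (ad (x * y) (x * ng y)) = o x := by
    rw [o_ad, o_mul, o_mul, o_ng, ← h, idem, idem]
  have h3 := mul_ng_o (ad (x * y) (x * ng y))
  rw [h2] at h3
  rw [h3] at h1
  exact h1

lemma fib_absorb {x y : M} (h : o x = o y) : ad x (x * y) = x := by
  have h1 := fib_split h
  calc ad x (x * y) = ad (ad (x * y) (x * ng y)) (x * y) := by rw [← h1]
    _ = ad (x * y) (x * ng y) := by
      rw [ad_comm, ← ad_assoc, ad_self]
    _ = x := h1.symm

lemma fib_absorb' {x y : M} (h : o x = o y) : x * ad x y = x := by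
  have h1 : o (ng x) = o (ng y) := by rw [o_ng, o_ng, h]
  have h2 := congrArg ng (fib_absorb h1)
  rw [ng_ad, ng_ng, ng_mul, ng_ng, ng_ng] at h2
  exact h2

instance (E : M) : Min (Fib E) where
  min x y := ⟨x.val * y.val, by rw [o_mul, x.prop, y.prop, idem]⟩

instance (E : M) : Max (Fib E) where
  max x y := ⟨ad x.val y.val, by rw [o_ad, x.prop, y.prop, idem]⟩

lemma fib_inf_val {E : M} (x y : Fib E) : (x ⊓ y).val = x.val * y.val := rfl

lemma fib_sup_val {E : M} (x y : Fib E) : (x ⊔ y).val = ad x.val y.val := rfl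

instance (E : M) : Lattice (Fib E) :=
  Lattice.mk'
    (fun _ _ => Fib.ext (ad_comm _ _))
    (fun _ _ _ => Fib.ext (ad_assoc _ _ _))
    (fun _ _ => Fib.ext (mul_comm _ _))
    (fun _ _ _ => Fib.ext (mul_assoc _ _ _))
    (fun a b => Fib.ext (fib_absorb (a.prop.trans b.prop.symm)))
    (fun a b => Fib.ext (fib_absorb' (a.prop.trans b.prop.symm)))

lemma fib_dist {E : M} (a b c : Fib E) : a ⊓ (b ⊔ c) ≤ a ⊓ b ⊔ a ⊓ c := by
  have h1 : a ⊓ (b ⊔ c) = (a ⊓ b ⊔ a ⊓ c) ⊓ (b ⊔ c) := Fib.ext (dist' a.val b.val c.val)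
  rw [h1]
  exact inf_le_left

instance (E : M) : DistribLattice (Fib E) := DistribLattice.ofInfSupLe fib_dist

/-- complement in a fibre -/
def fcompl {E : M} (x : Fib E) : Fib E := ⟨ng x.val, by rw [o_ng, x.prop]⟩

/-- top of a fibre -/
def ftop {E : M} (hE : o E = E) : Fib E := ⟨ng E, by rw [o_ng, hE]⟩

/-- bottom of a fibre -/
def fbot {E : M} (hE : o E = E) : Fib E := ⟨E, hE⟩

lemma fle_top {E : M} (hE : o E = E) (x : Fib E) : x ≤ ftop hE := by
  rw [← inf_eq_left]
  apply Fib.ext
  change x.val * ng E = x.val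
  have := mul_ng_o x.val
  rwa [x.prop] at this

lemma fbot_le {E : M} (hE : o E = E) (x : Fib E) : fbot hE ≤ x := by
  rw [← sup_eq_right]
  apply Fib.ext
  change ad E x.val = x.val
  have := ad_o x.val
  rwa [x.prop, ad_comm] at this

lemma finf_compl {E : M} (hE : o E = E) (x : Fib E) : x ⊓ fcompl x = fbot hE :=
  Fib.ext x.prop

lemma fsup_compl {E : M} (hE : o E = E) (x : Fib E) : x ⊔ fcompl x = ftop hE := by
  apply Fib.ext
  change ad x.val (ng x.val) = ng E
  rw [ad_ng_self, x.prop]

/-- The Boolean algebra structure of a fibre. -/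
abbrev fibBoolean {E : M} (hE : o E = E) : BooleanAlgebra (Fib E) :=
  { (inferInstance : DistribLattice (Fib E)) with
    compl := fcompl
    top := ftop hE
    bot := fbot hE
    sdiff := fun x y => x ⊓ fcompl y
    himp := fun x y => y ⊔ fcompl x
    sdiff_eq := fun _ _ => rfl
    himp_eq := fun _ _ => rfl
    inf_compl_le_bot := fun x => le_of_eq (finf_compl hE x)
    top_le_sup_compl := fun x => le_of_eq (fsup_compl hE x).symm
    le_top := fun x => fle_top hE x
    bot_le := fun x => fbot_le hE x }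

end Model

/-- Elements of a Boolean algebra are separated by two-valued homomorphisms. -/
lemma exists_two_valued {B : Type u} [BooleanAlgebra B] {a b : B} (hab : ¬ a ≤ b) :
    ∃ F : B → Prop, (∀ x y, F (x ⊓ y) ↔ (F x ∧ F y)) ∧ (∀ x y, F (x ⊔ y) ↔ (F x ∨ F y)) ∧
      (∀ x, F xᶜ ↔ ¬ F x) ∧ F ⊤ ∧ ¬ F ⊥ ∧ F a ∧ ¬ F b := by
  have hdisj : Disjoint ((Order.PFilter.principal a : Order.PFilter B) : Set B)
      ((Order.Ideal.principal b : Order.Ideal B) : Set B) := by
    rw [Set.disjoint_left]
    intro x hx hx'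
    have h1 : a ≤ x := hx
    have h2 : x ≤ b := hx'
    exact hab (h1.trans h2)
  obtain ⟨J, hJ, hbJ, haJ⟩ := DistribLattice.prime_ideal_of_disjoint_filter_ideal hdisj
  have hbot : (⊥ : B) ∈ J := Order.Ideal.bot_mem J
  have htop : (⊤ : B) ∉ J := hJ.toIsProper.top_notMem
  have hcompl : ∀ x, x ∉ J → xᶜ ∈ J := fun x hx => hJ.compl_mem_of_notMem hx
  have hboth : ∀ x, x ∈ J → xᶜ ∈ J → False := by
    intro x h1 h2
    apply htop
    rw [← sup_compl_eq_top (x := x)]
    exact Order.Ideal.sup_mem h1 h2
  refine ⟨fun x => x ∉ J, ?_, ?_, ?_, htop, fun h => h hbot, ?_, fun h => h (hbJ ?_)⟩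
  · intro x y
    constructor
    · intro h
      exact ⟨fun hx => h (J.lower inf_le_left hx), fun hy => h (J.lower inf_le_right hy)⟩
    · rintro ⟨hx, hy⟩ h
      rcases hJ.mem_or_mem h with h | h
      · exact hx h
      · exact hy h
  · intro x y
    constructor
    · intro h
      by_contra hcon
      push Not at hcon
      exact h (Order.Ideal.sup_mem hcon.1 hcon.2)
    · rintro (hx | hy) h
      · exact hx (J.lower le_sup_left h)
      · exact hy (J.lower le_sup_right h)
  · intro x
    constructor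
    · intro h1 h2
      exact h1 (hcompl x h2)
    · intro h1 h2
      rw [not_not] at h1
      exact hboth x h1 h2
  · rw [Set.disjoint_left] at haJ
    exact haJ (show a ∈ ((Order.PFilter.principal a : Order.PFilter B) : Set B) from le_refl a)
  · exact le_refl b

namespace Model

variable {M : Type u} [Model M] {E : M}

/-- `y + E` in the fibre over `E` -/
def al (hE : o E = E) (y : M) (h : o y * E = E) : Fib E := ⟨ad y E, by rw [o_ad, hE, h]⟩

/-- `⊤_y + E` in the fibre over `E` -/
def pr (hE : o E = E) (y : M) (h : o y * E = E) : Fib E :=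
  ⟨ad (ng (o y)) E, by rw [o_ad, o_ng, o_o, hE, h]⟩

lemma h_ng {y : M} (h : o y * E = E) : o (ng y) * E = E := by rw [o_ng, h]

lemma h_mul {y z : M} (hy : o y * E = E) (hz : o z * E = E) : o (y * z) * E = E := by
  rw [o_mul, mul_assoc, hz, hy]

lemma h_one : o (1 : M) * E = E := by rw [o_one, one_mul]

lemma ad_top (y : M) : ad y (ng (o y)) = ng (o y) := by
  have : ng (o y) = ad y (ng y) := (ad_ng_self y).symm
  rw [this, ← ad_assoc, ad_self]

lemma al_le_pr (hE : o E = E) (y : M) (h : o y * E = E) : al hE y h ≤ pr hE y h := by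
  rw [← sup_eq_right]
  apply Fib.ext
  change ad (ad y E) (ad (ng (o y)) E) = ad (ng (o y)) E
  rw [ad_assoc, ← ad_assoc E, ad_comm E, ad_assoc _ E E, ad_self, ← ad_assoc, ad_top]

lemma al_sup_al_ng (hE : o E = E) (y : M) (h : o y * E = E) :
    al hE y h ⊔ al hE (ng y) (h_ng h) = pr hE y h := by
  apply Fib.ext
  change ad (ad y E) (ad (ng y) E) = ad (ng (o y)) E
  rw [ad_assoc, ← ad_assoc E, ad_comm E, ad_assoc _ E E, ad_self, ← ad_assoc, ad_ng_self]

lemma al_inf_al_ng (hE : o E = E) (y : M) (h : o y * E = E) :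
    al hE y h ⊓ al hE (ng y) (h_ng h) = fbot hE := by
  apply le_antisymm ?_ (fbot_le hE _)
  rw [← sup_eq_right]
  apply Fib.ext
  change ad (ad y E * ad (ng y) E) E = E
  have h1 : ad E (o y) = E := by
    have := ad_o_o E y
    rw [hE] at this
    rw [this, mul_comm, h]
  have h2 := dual_dist E y (ng y)
  have h3 : y * ng y = o y := rfl
  rw [h3, h1] at h2
  rw [ad_comm y, ad_comm (ng y)]
  calc ad (ad E y * ad E (ng y)) E = ad (ad E y * ad E (ng y)) (ad (o y) E) := by
        rw [ad_comm (o y), h1]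
    _ = ad (ad (ad E y * ad E (ng y)) (o y)) E := (ad_assoc _ _ _).symm
    _ = E := by rw [← h2, ad_self]

lemma pr_ng (hE : o E = E) (y : M) (h : o y * E = E) :
    pr hE (ng y) (h_ng h) = pr hE y h := by
  apply Fib.ext
  change ad (ng (o (ng y))) E = ad (ng (o y)) E
  rw [o_ng]

lemma pr_mul (hE : o E = E) (y z : M) (hy : o y * E = E) (hz : o z * E = E) :
    pr hE (y * z) (h_mul hy hz) = pr hE y hy ⊔ pr hE z hz := by
  apply Fib.ext
  change ad (ng (o (y * z))) E = ad (ad (ng (o y)) E) (ad (ng (o z)) E)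
  rw [o_mul, ng_mul, ad_assoc (ng (o y)) E, ← ad_assoc E, ad_comm E, ad_assoc _ E E, ad_self,
    ← ad_assoc]

/-- `y · ⊤_E` -/
def be (hE : o E = E) (y : M) (h : o y * E = E) : Fib E :=
  ⟨y * ng E, by rw [o_mul, o_ng, hE, h]⟩

lemma be_eq (hE : o E = E) (y : M) (h : o y * E = E) :
    be hE y h = fcompl (al hE (ng y) (h_ng h)) := by
  apply Fib.ext
  change y * ng E = ng (ad (ng y) E)
  rw [ng_ad, ng_ng]

lemma be_mul (hE : o E = E) (y z : M) (hy : o y * E = E) (hz : o z * E = E) :
    be hE (y * z) (h_mul hy hz) = be hE y hy ⊓ be hE z hz := by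
  apply Fib.ext
  change y * z * ng E = y * ng E * (z * ng E)
  rw [mul_mul_mul_comm, idem]

/-- two-valued homomorphisms on a fibre -/
structure TwoVal (hE : o E = E) (F : Fib E → Prop) : Prop where
  inf : ∀ x y, F (x ⊓ y) ↔ (F x ∧ F y)
  sup : ∀ x y, F (x ⊔ y) ↔ (F x ∨ F y)
  compl : ∀ x, F (fcompl x) ↔ ¬ F x
  top : F (ftop hE)
  bot : ¬ F (fbot hE)

open Classical in
/-- The map to `C3` given by a two-valued homomorphism on a fibre. -/
noncomputable def Phi (hE : o E = E) (F : Fib E → Prop) (y : M) : C3 :=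
  if h : o y * E = E then
    (if F (pr hE y h) then (if F (al hE y h) then C3.c else C3.nc) else C3.one)
  else C3.one

variable {hE : o E = E} {F : Fib E → Prop}

lemma F_al_ng (hF : TwoVal hE F) (y : M) (h : o y * E = E) :
    F (al hE (ng y) (h_ng h)) ↔ (F (pr hE y h) ∧ ¬ F (al hE y h)) := by
  have h1 := al_sup_al_ng hE y h
  have h2 := al_inf_al_ng hE y h
  rw [← h1, hF.sup]
  have h3 : ¬ (F (al hE y h) ∧ F (al hE (ng y) (h_ng h))) := by
    rw [← hF.inf, h2]
    exact hF.bot
  tauto

lemma F_al_pr (hF : TwoVal hE F) (y : M) (h : o y * E = E) :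
    F (al hE y h) → F (pr hE y h) := by
  intro h1
  have h2 := sup_eq_right.2 (al_le_pr hE y h)
  rw [← h2, hF.sup]
  exact Or.inl h1

lemma F_be (hF : TwoVal hE F) (y : M) (h : o y * E = E) :
    F (be hE y h) ↔ (F (pr hE y h) → F (al hE y h)) := by
  rw [be_eq, hF.compl, F_al_ng hF]
  tauto

lemma F_al_mul (hF : TwoVal hE F) (y z : M) (hy : o y * E = E) (hz : o z * E = E) :
    F (al hE (y * z) (h_mul hy hz)) ↔
      ((F (pr hE y hy) ∨ F (pr hE z hz)) ∧ (F (pr hE y hy) → F (al hE y hy)) ∧
        (F (pr hE z hz) → F (al hE z hz))) := by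
  have h1 := F_be hF (y * z) (h_mul hy hz)
  rw [be_mul hE y z hy hz, hF.inf, F_be hF y hy, F_be hF z hz, pr_mul hE y z hy hz, hF.sup] at h1
  have h2 := F_al_pr hF (y * z) (h_mul hy hz)
  rw [pr_mul hE y z hy hz, hF.sup] at h2
  tauto

lemma Phi_ng (hF : TwoVal hE F) (y : M) (h : o y * E = E) :
    Phi hE F (ng y) = algC3.neg (Phi hE F y) := by
  unfold Phi
  rw [dif_pos h, dif_pos (h_ng h), pr_ng hE y h]
  by_cases h1 : F (pr hE y h)
  · rw [if_pos h1, if_pos h1]
    by_cases h2 : F (al hE y h)
    · rw [if_pos h2, if_neg]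
      · rfl
      · rw [F_al_ng hF y h]; tauto
    · rw [if_neg h2, if_pos]
      · rfl
      · rw [F_al_ng hF y h]; tauto
  · rw [if_neg h1, if_neg h1]
    rfl

lemma Phi_mul (hF : TwoVal hE F) (y z : M) (hy : o y * E = E) (hz : o z * E = E) :
    Phi hE F (y * z) = algC3.mul (Phi hE F y) (Phi hE F z) := by
  unfold Phi
  rw [dif_pos hy, dif_pos hz, dif_pos (h_mul hy hz)]
  have h5 : F (pr hE (y * z) (h_mul hy hz)) ↔ (F (pr hE y hy) ∨ F (pr hE z hz)) := by
    rw [pr_mul hE y z hy hz, hF.sup]
  have h6 := F_al_mul hF y z hy hz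
  by_cases h1 : F (pr hE y hy) <;> by_cases h2 : F (pr hE z hz) <;>
    by_cases h3 : F (al hE y hy) <;> by_cases h4 : F (al hE z hz) <;>
    simp [h1, h2, h3, h4, h5, h6, algC3]

lemma Phi_one (hF : TwoVal hE F) : Phi hE F 1 = C3.one := by
  unfold Phi
  rw [dif_pos h_one, if_neg]
  have : pr hE 1 h_one = fbot hE := by
    apply Fib.ext
    change ad (ng (o 1)) E = E
    rw [o_one, ng_one, one_ad]
  rw [this]
  exact hF.bot

open Classical in
lemma Phi_fib (hF : TwoVal hE F) (y : M) (h : o y = E) :
    Phi hE F y = if F ⟨y, h⟩ then C3.c else C3.nc := by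
  have h0 : o y * E = E := by rw [h, idem]
  unfold Phi
  rw [dif_pos h0]
  have h1 : pr hE y h0 = ftop hE := by
    apply Fib.ext
    change ad (ng (o y)) E = ng E
    rw [h, ad_comm]
    have := ad_ng_self E
    rwa [hE] at this
  have h2 : al hE y h0 = ⟨y, h⟩ := by
    apply Fib.ext
    change ad y E = y
    rw [← h, ad_o]
  rw [h1, if_pos hF.top, h2]

/-- Separation: elements of the same fibre are separated by the maps `Phi`. -/
lemma exists_twoVal {x y : M} (hxy : o x = o y) (hne : x ≠ y) :
    ∃ (F : Fib (o x) → Prop) (_ : TwoVal (o_o x) F),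
      Phi (o_o x) F x ≠ Phi (o_o x) F y := by
  let E := o x
  have hE : o E = E := o_o x
  let _ := fibBoolean hE
  have hne' : (⟨x, rfl⟩ : Fib E) ≠ ⟨y, hxy.symm⟩ := fun h => hne (congrArg Fib.val h)
  have key : ∀ a b : Fib E, ¬ a ≤ b → ∃ (F : Fib E → Prop) (_ : TwoVal hE F), F a ∧ ¬ F b := by
    intro a b hab
    obtain ⟨F, h1, h2, h3, h4, h5, h6, h7⟩ := exists_two_valued hab
    exact ⟨F, ⟨h1, h2, h3, h4, h5⟩, h6, h7⟩
  rcases Classical.em ((⟨x, rfl⟩ : Fib E) ≤ ⟨y, hxy.symm⟩) with hle | hle
  · have hle' : ¬ (⟨y, hxy.symm⟩ : Fib E) ≤ ⟨x, rfl⟩ := fun h => hne' (le_antisymm hle h)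
    obtain ⟨F, hF, h1, h2⟩ := key _ _ hle'
    refine ⟨F, hF, ?_⟩
    rw [Phi_fib hF x rfl, Phi_fib hF y hxy.symm, if_neg h2, if_pos h1]
    exact fun h => C3.noConfusion h
  · obtain ⟨F, hF, h1, h2⟩ := key _ _ hle
    refine ⟨F, hF, ?_⟩
    rw [Phi_fib hF x rfl, Phi_fib hF y hxy.symm, if_neg h2, if_pos h1]
    exact fun h => C3.noConfusion h

end Model

/-- The variable `k` occurs in the term. -/
def Occurs (k : ℕ) : Term → Prop
  | .var n => n = k
  | .one => False
  | .mul s t => Occurs k s ∨ Occurs k t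
  | .neg t => Occurs k t

lemma algC3_mul_one_iff (a b : C3) : algC3.mul a b = C3.one ↔ (a = C3.one ∧ b = C3.one) := by
  cases a <;> cases b <;> simp [algC3]

lemma algC3_neg_one_iff (a : C3) : algC3.neg a = C3.one ↔ a = C3.one := by
  cases a <;> simp [algC3]

lemma eval_eq_one_iff (k : ℕ) (t : Term) :
    t.eval algC3 (fun n => if n = k then C3.c else C3.one) = C3.one ↔ ¬ Occurs k t := by
  induction t with
  | var n =>
    simp only [Term.eval, Occurs]
    split_ifs with h <;> simp [h]
  | one => simp [Term.eval, Occurs, algC3]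
  | mul s t hs ht =>
    rw [Term.eval, algC3_mul_one_iff, hs, ht, Occurs]
    tauto
  | neg t ht =>
    rw [Term.eval, algC3_neg_one_iff, ht, Occurs]

lemma occurs_iff {s t : Term} (h : Satisfies algC3 s t) (k : ℕ) : Occurs k s ↔ Occurs k t := by
  have h1 := eval_eq_one_iff k s
  have h2 := eval_eq_one_iff k t
  rw [h] at h1
  tauto

section complete

open Model

variable {M : Type u} [Model M]

variable (M) in
/-- A model as an algebra -/
def toAlg : Alg M := ⟨fun x y => x * y, Model.ng, 1⟩

lemma occurs_le (v : ℕ → M) (k : ℕ) (t : Term) (h : Occurs k t) :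
    o (v k) * o (t.eval (toAlg M) v) = o (t.eval (toAlg M) v) := by
  induction t with
  | var n =>
    obtain rfl : n = k := h
    exact idem _
  | one => exact absurd h (by simp [Occurs])
  | mul s t hs ht =>
    change o (v k) * o (s.eval (toAlg M) v * t.eval (toAlg M) v) =
      o (s.eval (toAlg M) v * t.eval (toAlg M) v)
    rw [o_mul]
    rcases h with h | h
    · rw [← mul_assoc, hs h]
    · rw [mul_left_comm, ht h]
  | neg t ht =>
    change o (v k) * o (ng (t.eval (toAlg M) v)) = o (ng (t.eval (toAlg M) v))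
    rw [o_ng]
    exact ht h

lemma le_of_occurs (v : ℕ → M) (E : M) (t : Term) (h : ∀ k, Occurs k t → o (v k) * E = E) :
    o (t.eval (toAlg M) v) * E = E := by
  induction t with
  | var n => exact h n rfl
  | one =>
    change o (1 : M) * E = E
    rw [o_one, one_mul]
  | mul s t hs ht =>
    exact h_mul (hs fun k hk => h k (Or.inl hk)) (ht fun k hk => h k (Or.inr hk))
  | neg t ht => exact h_ng (ht h)

lemma Phi_eval {E : M} {hE : o E = E} {F : Fib E → Prop} (hF : TwoVal hE F) (v : ℕ → M)
    (t : Term) (h : ∀ k, Occurs k t → o (v k) * E = E) :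
    Phi hE F (t.eval (toAlg M) v) = t.eval algC3 (fun k => Phi hE F (v k)) := by
  induction t with
  | var n => rfl
  | one => exact Phi_one hF
  | mul s t hs ht =>
    have h1 : ∀ k, Occurs k s → o (v k) * E = E := fun k hk => h k (Or.inl hk)
    have h2 : ∀ k, Occurs k t → o (v k) * E = E := fun k hk => h k (Or.inr hk)
    change _ = algC3.mul (s.eval algC3 _) (t.eval algC3 _)
    rw [← hs h1, ← ht h2]
    exact Phi_mul hF _ _ (le_of_occurs v E s h1) (le_of_occurs v E t h2)
  | neg t ht =>
    have h1 : ∀ k, Occurs k t → o (v k) * E = E := h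
    change _ = algC3.neg (t.eval algC3 _)
    rw [← ht h1]
    exact Phi_ng hF _ (le_of_occurs v E t h1)

/-- Identities of `C3` hold in all models of the basis. -/
theorem model_satisfies {s t : Term} (h : Satisfies algC3 s t) : Satisfies (toAlg M) s t := by
  intro v
  by_contra hne
  have hst : o (s.eval (toAlg M) v) = o (t.eval (toAlg M) v) := by
    have h1 : o (t.eval (toAlg M) v) * o (s.eval (toAlg M) v) = o (s.eval (toAlg M) v) :=
      le_of_occurs v _ t fun k hk => occurs_le v k s ((occurs_iff h k).2 hk)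
    have h2 : o (s.eval (toAlg M) v) * o (t.eval (toAlg M) v) = o (t.eval (toAlg M) v) :=
      le_of_occurs v _ s fun k hk => occurs_le v k t ((occurs_iff h k).1 hk)
    rw [← h1, mul_comm, h2]
  obtain ⟨F, hF, hPhi⟩ := exists_twoVal hst hne
  apply hPhi
  rw [Phi_eval hF v s fun k hk => occurs_le v k s hk,
    Phi_eval hF v t fun k hk => occurs_le v k s ((occurs_iff h k).2 hk)]
  exact h _

end complete

section deduction

/-- The three-variable valuation -/
def val3 {M : Type u} (a b c : M) : ℕ → M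
  | 0 => a
  | 1 => b
  | _ => c

/-- An algebra satisfying the basis is a model. -/
@[reducible] def modelOf {M : Type u} (A : Alg M)
    (hA : ∀ e ∈ basis, Satisfies A e.1 e.2) : Model M where
  mul := A.mul
  one := A.one
  mul_assoc a b c := hA idAssoc (by simp [basis]) (val3 a b c)
  one_mul a := (hA idComm (by simp [basis]) (val3 A.one a a)).trans
    (hA idUnit (by simp [basis]) (val3 a a a))
  mul_one a := hA idUnit (by simp [basis]) (val3 a a a)
  mul_comm a b := hA idComm (by simp [basis]) (val3 a b a)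
  ng := A.neg
  idem a := hA idIdem (by simp [basis]) (val3 a a a)
  ng_ng a := hA idInv (by simp [basis]) (val3 a a a)
  ng_one := hA idNegOne (by simp [basis]) (val3 A.one A.one A.one)
  mul_top a := hA idTop (by simp [basis]) (val3 a a a)
  bot_bot a b := hA idBotMul (by simp [basis]) (val3 a b a)
  bot_add a b := hA idBotAdd (by simp [basis]) (val3 a b a)
  dist a b c := hA idDist (by simp [basis]) (val3 a b c)

/-- Semantic completeness. -/
theorem satisfies_of_basis {M : Type u} (A : Alg M) (hA : ∀ e ∈ basis, Satisfies A e.1 e.2)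
    {s t : Term} (h : Satisfies algC3 s t) : Satisfies A s t :=
  @model_satisfies M (modelOf A hA) s t h

/-- The setoid of derivable identities. -/
def derSetoid : Setoid Term where
  r := Derives basis
  iseqv := ⟨Derives.refl, fun h => Derives.symm _ _ h, fun h h' => Derives.trans _ _ _ h h'⟩

/-- The term algebra modulo derivability. -/
def quotAlg : Alg (Quotient derSetoid) where
  mul := Quotient.map₂ Term.mul fun _ _ h₁ _ _ h₂ => Derives.mul _ _ _ _ h₁ h₂
  neg := Quotient.map Term.neg fun _ _ h => Derives.neg _ _ h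
  one := Quotient.mk _ Term.one

lemma eval_quot (σ : ℕ → Term) (t : Term) :
    t.eval quotAlg (fun n => Quotient.mk derSetoid (σ n)) = Quotient.mk derSetoid (t.subst σ) := by
  induction t with
  | var n => rfl
  | one => rfl
  | mul s t hs ht =>
    rw [Term.eval, hs, ht]
    rfl
  | neg t ht =>
    rw [Term.eval, ht]
    rfl

lemma quot_basis : ∀ e ∈ basis, Satisfies quotAlg e.1 e.2 := by
  rintro ⟨s, t⟩ he v
  have h1 : v = fun n => Quotient.mk derSetoid ((v n).out) := by
    funext n
    exact (Quotient.out_eq (v n)).symm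
  rw [h1]
  rw [eval_quot, eval_quot]
  exact Quotient.sound (Derives.subst _ _ _ (Derives.ax _ _ he))

lemma subst_var (t : Term) : t.subst Term.var = t := by
  induction t with
  | var n => rfl
  | one => rfl
  | mul s t hs ht => rw [Term.subst, hs, ht]
  | neg t ht => rw [Term.subst, ht]

lemma eval_subst {M : Type u} (A : Alg M) (σ : ℕ → Term) (v : ℕ → M) (t : Term) :
    (t.subst σ).eval A v = t.eval A (fun n => (σ n).eval A v) := by
  induction t with
  | var n => rfl
  | one => rfl
  | mul s t hs ht => rw [Term.subst, Term.eval, Term.eval, hs, ht]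
  | neg t ht => rw [Term.subst, Term.eval, Term.eval, ht]

/-- The ten identities hold in `C₃ˢ`. -/
lemma basis_valid : ∀ e ∈ basis, Satisfies algC3 e.1 e.2 := by
  intro e he v
  simp only [basis, List.mem_cons, List.not_mem_nil, or_false] at he
  rcases h0 : v 0 <;> rcases h1 : v 1 <;> rcases h2 : v 2 <;>
    rcases he with rfl | rfl | rfl | rfl | rfl | rfl | rfl | rfl | rfl | rfl <;>
    simp [Term.eval, Term.add, Term.bot, h0, h1, h2, algC3]

/-- Soundness of deductions. -/
lemma sound {s t : Term} (h : Derives basis s t) : Satisfies algC3 s t := by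
  induction h with
  | ax s t h => exact basis_valid _ h
  | refl s => exact fun v => rfl
  | symm s t _ ih => exact fun v => (ih v).symm
  | trans s t r _ _ ih₁ ih₂ => exact fun v => (ih₁ v).trans (ih₂ v)
  | mul s s' t t' _ _ ih₁ ih₂ =>
    intro v
    rw [Term.eval, Term.eval, ih₁ v, ih₂ v]
  | neg s t _ ih =>
    intro v
    rw [Term.eval, Term.eval, ih v]
  | subst s t σ _ ih =>
    intro v
    rw [eval_subst, eval_subst]
    exact ih _

end deduction

/-- **Main theorem.** The ten identities of `basis` form an equational basis of the variety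
generated by `C₃ˢ`: their equational consequences are exactly the identities valid in `C₃ˢ`.
Equivalently (second part), an algebra of type `(·, ¬, 1)` lies in that variety, i.e. satisfies
all identities valid in `C₃ˢ`, if and only if it satisfies the ten identities. -/
theorem result :
    (∀ s t : Term, Derives basis s t ↔ Satisfies algC3 s t) ∧
    (∀ (M : Type u) (A : Alg M), (∀ e ∈ basis, Satisfies A e.1 e.2) ↔
      (∀ s t : Term, Satisfies algC3 s t → Satisfies A s t)) := by
  refine ⟨fun s t => ⟨sound, fun h => ?_⟩, fun M A => ⟨fun hA s t h => satisfies_of_basis A hA h,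
    fun h e he => h _ _ (basis_valid e he)⟩⟩
  have h1 := satisfies_of_basis quotAlg quot_basis h (fun n => Quotient.mk derSetoid (Term.var n))
  rw [eval_quot, eval_quot, subst_var, subst_var] at h1
  exact Quotient.exact h1

end Pool.Agent.Results.MP_7f507d_al.FiniteBasis
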